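import Pool.Agent.H893.DD.Glue
import Pool.Graph.R_seed8.R187.CT.Base

/-!
# Algebras of finite type over a field as base rings, and almost Abhyankar valuations
-/

set_option autoImplicit false

universe u

namespace Pool.Agent.H413.PT

open IsLocalRing Pool.Agent.W418.LU2 Pool.Agent.TH188.QS
open scoped NNReal

/-- The algebra generated over a finitely generated `k`-algebra `R`. -/
lemma exists_gen {k R : Type u} [Field k] [CommRing R] [Algebra k R] [Algebra.FiniteType k R] :
    ∃ G : Set R, G.Finite ∧ ∀ {K : Type u} [Field K] (ρ : R →+* K) (T : Set K),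
      Subring.closure ((ρ.range : Set K) ∪ T) =
        Subring.closure ((((ρ.comp (algebraMap k R)).range : Subring K) : Set K) ∪
          (ρ '' G ∪ T)) := by
  obtain ⟨s, hs⟩ := (inferInstance : Algebra.FiniteType k R).out
  refine ⟨s, s.finite_toSet, fun {K} _ ρ T => ?_⟩
  apply le_antisymm
  · rw [Subring.closure_le]
    rintro z (⟨y, rfl⟩ | hz)
    · have hy : y ∈ Algebra.adjoin k (s : Set R) := by rw [hs]; trivial
      change ρ y ∈ Subring.closure _
      induction hy using Algebra.adjoin_induction with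
      | mem x hx => exact Subring.subset_closure (Or.inr (Or.inl ⟨x, hx, rfl⟩))
      | algebraMap r => exact Subring.subset_closure (Or.inl ⟨r, rfl⟩)
      | add x y hx hy h1 h2 => rw [map_add]; exact Subring.add_mem _ h1 h2
      | mul x y hx hy h1 h2 => rw [map_mul]; exact Subring.mul_mem _ h1 h2
    · exact Subring.subset_closure (Or.inr (Or.inr hz))
  · rw [Subring.closure_le]
    rintro z (⟨c, rfl⟩ | ⟨x, -, rfl⟩ | hz)
    · exact Subring.subset_closure (Or.inl ⟨algebraMap k R c, rfl⟩)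
    · exact Subring.subset_closure (Or.inl ⟨x, rfl⟩)
    · exact Subring.subset_closure (Or.inr hz)

/-- Algebras of finite type over fields are base rings. -/
theorem hj_finiteType (k : Type u) {R : Type u} [Field k] [CommRing R] [Algebra k R]
    [Algebra.FiniteType k R] : HJ R := by
  intro L _ ρ T hT hfr
  obtain ⟨G, hG, hG'⟩ := exists_gen (k := k) (R := R)
  rw [hG' ρ T] at hfr ⊢
  exact hj_field (k := k) L (ρ.comp (algebraMap k R)) (ρ '' G ∪ T) ((hG.image _).union hT) hfr

/-- Almost Abhyankar valuations. -/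
theorem good_almost {k R : Type u} [Field k] (p : ℕ) [Fact p.Prime] [CharP k p] [CommRing R]
    [Algebra k R] [Algebra.FiniteType k R] {K : Type u} [Field K] (ρ : R →+* K)
    (hE : letI := (ρ.comp (algebraMap k R)).toAlgebra; Algebra.EssFiniteType k K)
    (v : Valuation K ℝ≥0) (hk : ∀ c : k, c ≠ 0 → v (ρ (algebraMap k R c)) = 1)
    (hess : letI := (ρ.comp (algebraMap k R)).toAlgebra; letI := Pool.Agent.H893.DD.rAlg v hk
      Algebra.EssFiniteType k (Pool.Agent.H893.DD.Rf v))
    (hsg : letI := (ρ.comp (algebraMap k R)).toAlgebra; letI := Pool.Agent.H893.DD.rAlg v hk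
      ∃ s : Finset (Pool.Agent.H893.DD.Rf v),
        IsTranscendenceBasis k ((↑) : s → Pool.Agent.H893.DD.Rf v) ∧
        Algebra.IsSeparable (IntermediateField.adjoin k (s : Set (Pool.Agent.H893.DD.Rf v)))
          (Pool.Agent.H893.DD.Rf v))
    (r : ℕ) (hr : 2 ≤ r)
    (htr : letI := (ρ.comp (algebraMap k R)).toAlgebra; letI := Pool.Agent.H893.DD.rAlg v hk
      Algebra.trdeg k K =
        Algebra.trdeg k (Pool.Agent.H893.DD.Rf v) + ((r + 1 : ℕ) : Cardinal))
    (x : Fin r → K) (hx0 : ∀ i, x i ≠ 0)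
    (hind : ∀ m : Fin r → ℤ, ∏ i, v (x i) ^ m i = 1 → m = 0)
    (hrr : ∀ z : K, z ≠ 0 → ∃ n : ℕ, n ≠ 0 ∧ ∃ m : Fin r → ℤ, v z ^ n = ∏ i, v (x i) ^ m i) :
    Pool.Agent.R187.CT.Good ρ v.valuationSubring := by
  obtain ⟨G, hG, hG'⟩ := exists_gen (k := k) (R := R)
  let _ := (ρ.comp (algebraMap k R)).toAlgebra
  have hE' : Algebra.EssFiniteType k K := hE
  refine Pool.Agent.R187.CT.good_given (hj_finiteType k) ρ _ ?_ ?_
  · obtain ⟨S, hS, hSV, hSM⟩ := Pool.Agent.H893.DD.exists_mod (k := k) v hk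
    refine ⟨S, hS, fun z => ?_⟩
    have h1 := (hSM (Pool.Agent.R187.CT.rg (ρ.comp (algebraMap k R)) S)
      (fun c => Subring.subset_closure (Or.inl ⟨c, rfl⟩))
      (fun s hs => Subring.subset_closure (Or.inr hs)) (by
        rw [Subring.closure_le]
        rintro z (⟨c, rfl⟩ | hz)
        · exact Pool.Agent.H893.DD.kV_mem v hk c
        · exact hSV z hz)).2 z
    refine Pool.Agent.R187.CT.fr_mono ?_ h1
    unfold Pool.Agent.R187.CT.rg
    rw [Subring.closure_le]
    rintro z (⟨c, rfl⟩ | hz)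
    · exact Subring.subset_closure (Or.inl ⟨algebraMap k R c, rfl⟩)
    · exact Subring.subset_closure (Or.inr hz)
  · intro T hT hTV hTK
    exact Pool.Agent.H893.DD.lu_all p v hk hess hsg r hr htr x hx0 hind hrr (ρ '' G ∪ T)
      ((hG.image _).union hT) (Pool.Agent.R187.CT.rg ρ T) (hG' ρ T) ⟨hTV, hTK⟩

end Pool.Agent.H413.PT
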