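import Pool.Graph.R_seed8.R187.CT.Base
import Pool.Graph.R_seed8.H176.DT.H13
import Pool.Graph.R_pool_sql_team_seeded_9f66d723.W5h94.SP.Lift
import Pool.Graph.R_pool_sql_team_seeded_9f66d723.W5h94.WP.Semi9

/-!
# Semistable uniformization: from the uniformization of the induced point

This is the library proof of `Pool.Agent.Results.MP_1a953e_ag.WildPoints.core`, with the class of
valuations replaced by the property `Good` and with an arbitrary base ring `O`.
-/

set_option autoImplicit false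
set_option linter.unusedVariables false

universe u

namespace Pool.Agent.H413.PT

open IsLocalRing Pool.Agent.W418.LU2 Pool.Agent.TH188.QS

/-- The local ring of `Spec B` at the centre of the valuation ring `V`: the fractions of elements
of `B` whose denominators are units of `V`. -/
def centreRing {F : Type u} [Field F] (V : ValuationSubring F) (B : Subring F) : Subring F where
  carrier := {x | ∃ a ∈ B, ∃ b ∈ B, b ≠ 0 ∧ b⁻¹ ∈ V ∧ x = a * b⁻¹}
  mul_mem' := (lo V.toSubring B).mul_mem'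
  one_mem' := (lo V.toSubring B).one_mem'
  add_mem' := (lo V.toSubring B).add_mem'
  zero_mem' := (lo V.toSubring B).zero_mem'
  neg_mem' := (lo V.toSubring B).neg_mem'

/-- The subring `P` of the field `K` is a regular local ring, and `ϖ` is the product of some (at
least one) of the elements of a regular system of parameters. (If `ϖ` is a uniformizer of a discrete
valuation ring `O` with perfect residue field and `P` is the local ring of an integral flat
`O`-scheme of finite type at a point of the special fibre, then these elements `t i` define a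
morphism from a neighbourhood of this point to `Spec O[t 0, ..., t d] / (t 0 * ... * t d - ϖ)` which
is flat with regular, hence smooth, fibre through this point; so it is smooth there.) -/
def IsSemistable {K : Type u} [Field K] (P : Subring K) (ϖ : K) : Prop :=
  ∃ (_ : IsRegularLocalRing P) (n : ℕ) (x : Fin n → P) (S : Finset (Fin n)),
    Ideal.span (Set.range x) = IsLocalRing.maximalIdeal P ∧ ringKrullDim P = n ∧
      S.Nonempty ∧ ϖ = ∏ i ∈ S, (x i : K)

/-- The coordinate ring `O[v / w : v ∈ W]` of the chart `w ≠ 0` of the projective `O`-scheme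
`Proj O[W]` with the function field `K` and the homogeneous coordinates `W ⊆ K`. -/
def chart {K : Type u} [Field K] (O : Subring K) (W : Set K) (w : K) : Subring K :=
  Subring.closure ((O : Set K) ∪ {z | ∃ v ∈ W, z = v / w})

/-- `Y` is a finite set of forms of some degree `d` over `O` in the homogeneous coordinates `W`,
and `p ^ n` times any form of degree `d` is a linear combination of the forms in `Y`, for some `n`.
So the closed subscheme of `Proj O[W]` defined by the forms in `Y` is contained in the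
fibre over `p`. -/
def IsVerticalCentre {K : Type u} [Field K] (O : Subring K) (p : K) (W Y : Set K) : Prop :=
  Y.Finite ∧ ∃ d n : ℕ, Y ⊆ ((Submodule.span O W) ^ d : Submodule O K) ∧
    ∀ z ∈ (Submodule.span O W) ^ d, p ^ n * z ∈ Submodule.span O Y

/-- The homogeneous coordinates of the blowing-up of `Proj O[W]` in the closed subscheme which is
defined by the forms in `Y`. -/
def blowUpCoordinates {K : Type u} [Field K] (W Y : Set K) : Set K :=
  {z | ∃ y ∈ Y, ∃ v ∈ W, z = y * v}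

/-- The projective scheme `Proj O[W]` is semistable at the centre of `V`, which lies in the chart
`w ≠ 0`. -/
def IsSemistableAt {K : Type u} [Field K] (V : ValuationSubring K) (O : Subring K) (W : Set K)
    (ϖ : K) : Prop :=
  ∃ w ∈ W, w ≠ 0 ∧ (∀ v ∈ W, v / w ∈ V) ∧ IsSemistable (centreRing V (chart O W w)) ϖ

/-- The ring `O[ϖ]`. (If `O` is a discrete valuation ring with the uniformizer `π = ϖ ^ N`, then it
is the ring of integers of the totally ramified extension `k(ϖ)` of the field of fractions `k` of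
`O`.) -/
def ramifiedRing {L K' : Type u} [Field L] [Field K'] (φ : L →+* K') (O : Subring L) (ϖ : K') :
    Subring K' :=
  Subring.closure ((O.map φ : Set K') ∪ {ϖ})

/-- `K' = K(ϖ)` with `ϖ ^ N = π`, and `V'` is a valuation ring of `K'` over the valuation ring `V`
of `K`. -/
def IsLift {K K' : Type u} [Field K] [Field K'] [Algebra K K'] (V : ValuationSubring K) (π : K)
    (N : ℕ) (V' : ValuationSubring K') (ϖ : K') : Prop :=
  V'.comap (algebraMap K K') = V ∧ ϖ ^ N = algebraMap K K' π ∧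
    ∀ z : K', z ∈ Subfield.closure (Set.range (algebraMap K K') ∪ {ϖ})

/-- Every element of the field `K` is a fraction of elements of `A`. -/
def HasFractionField {K : Type u} [Field K] (A : Subring K) : Prop :=
  ∀ z : K, ∃ a ∈ A, ∃ b ∈ A, b ≠ 0 ∧ z = a * b⁻¹

/-- The proof, with a name for the local ring. -/
theorem core {K : Type u} [Field K] (V V₁ : ValuationSubring K)
    (O : Subring K) (hR : HJ O) (hOV : ∀ a ∈ O, a ∈ V)
    (π : K) (hπ : π ∈ O) (hπ0 : π ≠ 0) (hπ1 : V.valuation π < 1)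
    (hV₁ : ∀ z : K, z ∈ V₁ ↔ ∃ n : ℕ, π ^ n * z ∈ V)
    (W : Set K) (hW : W.Finite) (w : K) (hw : w ∈ W) (hw0 : w ≠ 0)
    (hwV : ∀ z ∈ W, z / w ∈ V) (hWK : HasFractionField (chart O W w))
    (Q : Subring K) (hQ : lo V₁.toSubring (chart O W w) = Q) [IsRegularLocalRing Q]
    (U : ValuationSubring (ResidueField Q))
    (hU : ∀ z : Q, residue Q z ∈ U ↔ (z : K) ∈ V)
    (ρ : O →+* ResidueField Q) (hρ : ∀ (a : O) (h : (a : K) ∈ Q), ρ a = residue Q ⟨a, h⟩)
    (hUr : Pool.Agent.R187.CT.Good ρ U)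
    (hlead : ∀ p : ℕ, p.Prime → U.valuation (p : ResidueField Q) < 1 →
      ∀ z, U.valuation (ρ ⟨π, hπ⟩) ≤ U.valuation (ρ ⟨π, hπ⟩ - z ^ p)) :
    ∃ (D N₀ : ℕ) (ζ : ResidueField Q), 0 < D ∧ ζ ≠ 0 ∧
      (∀ n : ℤ, U.valuation (ρ ⟨π, hπ⟩) ≤ U.valuation ((ρ ⟨π, hπ⟩ / ζ ^ D) ^ n)) ∧
      ∀ N : ℕ, N₀ ≤ N → D ∣ N →
        (∃ (K' : Type u) (_ : Field K') (_ : Algebra K K') (V' : ValuationSubring K') (ϖ : K'),
          IsLift V π N V' ϖ) ∧
        ∀ {K' : Type u} [Field K'] [Algebra K K'] (V' : ValuationSubring K') (ϖ : K'),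
          IsLift V π N V' ϖ →
          ∃ Y : Set K',
            IsVerticalCentre (ramifiedRing (algebraMap K K') O ϖ) ϖ (algebraMap K K' '' W) Y ∧
            IsSemistableAt V' (ramifiedRing (algebraMap K K') O ϖ)
              (blowUpCoordinates (algebraMap K K' '' W) Y) ϖ := by
  classical
  have hA : chart O W w ≤ V.toSubring := by
    unfold chart
    rw [Subring.closure_le]
    rintro z (hz | ⟨y, hy, rfl⟩)
    · exact hOV z hz
    · exact hwV y hy
  have hMod : Pool.Agent.H176.DT.Mod V (chart O W w) := ⟨hA, hWK⟩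
  have hVV : V ≤ V₁ := fun z hz => (hV₁ z).2 ⟨0, by rwa [pow_zero, one_mul]⟩
  have hmV : ∀ z, V₁.valuation z < 1 → z ∈ V := by
    intro z hz
    by_contra hzV
    have h1 := hVV ((V.mem_or_inv_mem z).resolve_left hzV)
    have h2 : z ≠ 0 := fun h => hzV (by rw [h]; exact V.zero_mem)
    exact nu_iff.2 hz ⟨h2, h1⟩
  have hπ₁ : π⁻¹ ∈ V₁ := (hV₁ _).2 ⟨1, by
    rw [pow_one, mul_inv_cancel₀ hπ0]
    exact V.one_mem⟩
  have hA₁ : chart O W w ≤ V₁.toSubring := fun a ha => hVV (hA ha)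
  have hQV₁ : Q ≤ V₁.toSubring := by rw [← hQ]; exact lo_le hA₁
  have hAQ : chart O W w ≤ Q := by rw [← hQ]; exact le_lo _ _
  have hOA : ∀ z ∈ O, z ∈ chart O W w := fun z hz => Subring.subset_closure (Or.inl hz)
  have hQi : ∀ z ∈ Q, z ≠ 0 → z⁻¹ ∈ V₁.toSubring → z⁻¹ ∈ Q := by
    intro z hz h0 h1
    rw [← hQ] at hz ⊢
    exact inv_mem_lo hA₁ hz h0 h1
  have hFr : IsFractionRing Q K := by
    apply IsFractionRing.of_field
    intro z
    obtain ⟨a, ha, b, hb, hb0, rfl⟩ := hWK z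
    exact ⟨⟨a, hAQ ha⟩, ⟨b, hAQ hb⟩, (div_eq_mul_inv a b).symm⟩
  have hprV : ∀ {z : K} {u : ResidueField Q}, Pr (residue Q) z u → (z ∈ V ↔ u ∈ U) := by
    intro z u h
    rw [h.unique (Pool.Agent.W5h94.SP.q_pr (Pool.Agent.W5h94.SP.q_mem h))]
    exact (hU ⟨z, Pool.Agent.W5h94.SP.q_mem h⟩).symm
  have hpr0 : ∀ {z : K} {u : ResidueField Q}, Pr (residue Q) z u → (u = 0 ↔ V₁.valuation z < 1) :=
    fun h => Pool.Agent.W5h94.SP.q_zero_iff hQV₁ hQi h
  have hρr : ∀ a : O, Pr (residue Q) (a : K) (ρ a) := by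
    intro a
    rw [hρ a (hAQ (hOA a a.2))]
    exact Pool.Agent.W5h94.SP.q_pr _
  let rs : K → ResidueField Q := fun z => if hz : z ∈ Q then residue Q ⟨z, hz⟩ else 0
  have hrs : ∀ z ∈ Q, Pr (residue Q) z (rs z) := by
    intro z hz
    simp only [rs, dif_pos hz]
    exact Pool.Agent.W5h94.SP.q_pr hz
  -- comparison of the values
  have hval : ∀ {z z' : K} {u u' : ResidueField Q}, Pr (residue Q) z u → Pr (residue Q) z' u' →
      u' ≠ 0 → (V.valuation z ≤ V.valuation z' ↔ U.valuation u ≤ U.valuation u') := by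
    intro z z' u u' h h' hu'
    have hz' : z' ≠ 0 := h'.ne_zero hu'
    have h1 := hprV (h.mul (h'.inv hu'))
    rw [← V.valuation_le_one_iff, ← U.valuation_le_one_iff, map_mul, map_mul, map_inv₀,
      map_inv₀, ← div_eq_mul_inv, ← div_eq_mul_inv,
      div_le_one₀ (zero_lt_iff.2 ((map_ne_zero _).2 hz')),
      div_le_one₀ (zero_lt_iff.2 ((map_ne_zero _).2 hu'))] at h1
    exact h1
  have hπr : Pr (residue Q) π (ρ ⟨π, hπ⟩) := hρr ⟨π, hπ⟩
  have hπu : ρ ⟨π, hπ⟩ ≠ 0 := by
    intro h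
    exact nu_iff.2 ((hpr0 hπr).1 h) ⟨hπ0, hπ₁⟩
  -- the image of the coordinate ring
  let Tb : Set (ResidueField Q) := (fun v => rs (v / w)) '' W
  have hTb : Tb.Finite := hW.image _
  have hch : im (residue Q) (chart O W w) = Pool.Agent.R187.CT.rg ρ Tb := by
    unfold chart
    refine im_closure ?_ ?_
    · rintro u (hu | ⟨v, hv, rfl⟩)
      · exact ⟨ρ ⟨u, hu⟩, Or.inl ⟨⟨u, hu⟩, rfl⟩, hρr ⟨u, hu⟩⟩
      · exact ⟨rs (v / w), Or.inr ⟨v, hv, rfl⟩,
          hrs _ (hAQ (Subring.subset_closure (Or.inr ⟨v, hv, rfl⟩)))⟩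
    · rintro u (⟨a, rfl⟩ | ⟨v, hv, rfl⟩)
      · exact ⟨a, Or.inl a.2, hρr a⟩
      · exact ⟨v / w, Or.inr ⟨v, hv, rfl⟩,
          hrs _ (hAQ (Subring.subset_closure (Or.inr ⟨v, hv, rfl⟩)))⟩
  have himU : im (residue Q) (chart O W w) ≤ U.toSubring := by
    rintro u ⟨z, hz, h⟩
    exact (hprV h).1 (hA hz)
  have himF : ∀ u : ResidueField Q, ∃ a ∈ im (residue Q) (chart O W w),
      ∃ b ∈ im (residue Q) (chart O W w), b ≠ 0 ∧ u = a * b⁻¹ := by
    intro u
    obtain ⟨⟨z, hz⟩, rfl⟩ := residue_surjective (R := Q) u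
    have hz' := hz
    rw [← hQ] at hz'
    obtain ⟨a, ha, b, hb, hb0, hbV, hab⟩ := hz'
    have h1 := hrs a (hAQ ha)
    have h2 := hrs b (hAQ hb)
    have h3 : rs b ≠ 0 := fun h => nu_iff.2 ((hpr0 h2).1 h) ⟨hb0, hbV⟩
    refine ⟨rs a, ⟨a, ha, h1⟩, rs b, ⟨b, hb, h2⟩, h3, ?_⟩
    have h4 : Pr (residue Q) z (residue Q ⟨z, hz⟩) := Pool.Agent.W5h94.SP.q_pr hz
    refine h4.unique ?_
    rw [hab]
    exact h1.mul (h2.inv h3)
  have hnoeb : IsNoetherianRing (im (residue Q) (chart O W w)) := by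
    rw [hch]
    exact Pool.Agent.R187.CT.noe_rg hR ρ hTb
  have hLU : LogUnif U (im (residue Q) (chart O W w)) :=
    hUr.logUnif hR hTb himU hch.ge
      (fun b hb => ⟨b, by rw [← hch]; exact hb, 1, Subring.one_mem _, one_ne_zero,
        by rw [inv_one]; exact Subring.one_mem _, by rw [inv_one, mul_one]⟩) himF
  have hSU : Pool.Agent.H176.DT.SU U (im (residue Q) (chart O W w)) :=
    Pool.Agent.H176.DT.p_base _ _ ⟨himU, himF⟩ hLU
  have hN : IsNoetherianRing (chart O W w) := by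
    have hrange : ((O.subtype.range : Subring K) : Set K) = (O : Set K) := by
      ext z
      simp
    have hch' : chart O W w = Pool.Agent.R187.CT.rg O.subtype {z | ∃ y ∈ W, z = y / w} := by
      change _ = Subring.closure (((O.subtype.range : Subring K) : Set K) ∪ _)
      rw [hrange]
      rfl
    have hT : ({z | ∃ y ∈ W, z = y / w} : Set K).Finite := by
      refine (hW.image fun y => y / w).subset ?_
      rintro z ⟨y, hy, rfl⟩
      exact ⟨y, hy, rfl⟩
    rw [hch']
    exact Pool.Agent.R187.CT.noe_rg hR _ hT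
  obtain ⟨T, s, x, xb, hSt, hxV, hind, hmon, hxr⟩ := Pool.Agent.W5h94.SP.lift_SU hVV hmV hA Q hQ U
    hU hSU (hOA π hπ) hπ0 hπ₁
  have hxb0 : ∀ i, xb i ≠ 0 := fun i => (hxr i).1
  have hx0 : ∀ i, x i ≠ 0 := fun i => (hxr i).2.ne_zero (hxb0 i)
  have hmor : ∀ δ : Fin s → ℤ, Pr (residue Q) (mo x δ) (mo xb δ) := fun δ =>
    Pr.mo (fun i => (hxr i).2) hxb0 δ
  have hmob0 : ∀ δ : Fin s → ℤ, mo xb δ ≠ 0 := fun δ => mo_ne_zero hxb0 δ
  -- the local ring of the stage is contained in `Q`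
  have hxV₁ : ∀ i, (x i)⁻¹ ∈ V₁ := fun i =>
    hQV₁ (Pool.Agent.W5h94.SP.q_mem ((hxr i).2.inv (hxb0 i)))
  have hPQ : Pool.Agent.H176.DT.PP V (chart O W w) T ≤ Q := by
    obtain ⟨β, hβ, ⟨v, hv0, hv1, hv2, γ, hγ⟩, hβT, -⟩ := hSt.den
    have hβ0 : β ≠ 0 := by
      rw [hγ]
      exact mul_ne_zero hv0 (mo_ne_zero hx0 _)
    have hβi : β⁻¹ ∈ Q := by
      refine hQi β (hAQ hβ) hβ0 ?_
      rw [hγ, mul_inv]
      refine V₁.toSubring.mul_mem (hVV (hSt.reg.PA hv2)) ?_
      exact hQV₁ (Pool.Agent.W5h94.SP.q_mem ((hmor γ).inv (hmob0 γ)))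
    have hcl : Subring.closure ((chart O W w : Set K) ∪ T) ≤ Q := by
      rw [Subring.closure_le]
      rintro t (ht | ht)
      · exact hAQ ht
      · have h1 : t = β * t * β⁻¹ := by
          field_simp
        rw [h1]
        exact Q.mul_mem (hAQ (hβT t ht)) hβi
    rintro _ ⟨a, ha, b, hb, hb0, hbV, rfl⟩
    exact Q.mul_mem (hcl ha) (hQi b (hcl hb) hb0 (hVV hbV))
  obtain ⟨D, N₀, cc, hD, hζ', h3⟩ := Pool.Agent.W5h94.WP.ss_main9 V O hOV hW hw hw0 hwV hMod
    π hπ0 hπ1 hSt hxV hind hmon (by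
      intro i
      obtain ⟨n, hn⟩ := (hV₁ _).1 (hxV₁ i)
      refine ⟨n, ?_⟩
      rw [← V.valuation_le_one_iff, map_mul, map_pow, map_inv₀, ← div_eq_mul_inv,
        div_le_one₀ (zero_lt_iff.2 ((map_ne_zero _).2 (hx0 i)))] at hn
      exact hn) (by
      intro q hq hq1 a ha δ
      have hqr : Pr (residue Q) (q : K) (q : ResidueField Q) := by
        have h1 := Pr.alg (F := K) (φ := residue Q) (q : Q)
        rwa [map_natCast, map_natCast] at h1
      have hq2 : U.valuation (q : ResidueField Q) < 1 := by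
        by_contra hcon
        push Not at hcon
        have h1 : (q : ResidueField Q) ≠ 0 := by
          intro h
          rw [h, map_zero] at hcon
          exact absurd hcon (not_le.2 zero_lt_one)
        have h2 := (hval Pr.one hqr h1).2 (by rwa [map_one])
        rw [map_one] at h2
        exact absurd hq1 (not_lt.2 h2)
      have h1 := ((hrs a (hPQ ha)).mul (hmor δ)).pow q
      have h2 := hπr.add h1.neg
      rw [← sub_eq_add_neg, ← sub_eq_add_neg] at h2
      have h3 := hlead q hq hq2 (rs a * mo xb δ)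
      refine (hval hπr h2 ?_).2 h3
      intro h4
      rw [h4, map_zero, le_zero_iff, map_eq_zero] at h3
      exact hπu h3)
  refine ⟨D, N₀ + 1, mo xb cc, hD, hmob0 cc, fun n => ?_, fun N hN' hdN =>
    ⟨Pool.Agent.H176.DT.exists_root _ _ (by omega), ?_⟩⟩
  · have h1 : Pr (residue Q) (π / mo x cc ^ D) (ρ ⟨π, hπ⟩ / mo xb cc ^ D) := by
      rw [div_eq_mul_inv, div_eq_mul_inv]
      exact hπr.mul (((hmor cc).pow D).inv (pow_ne_zero _ (hmob0 cc)))
    have h2 : ρ ⟨π, hπ⟩ / mo xb cc ^ D ≠ 0 := div_ne_zero hπu (pow_ne_zero _ (hmob0 cc))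
    refine (hval hπr (h1.zpow h2 n) (zpow_ne_zero _ h2)).1 ?_
    rw [map_zpow₀]
    exact hζ' n
  have hN₀ : N₀ ≤ N := by omega
  rintro K' _ _ V' ϖ ⟨hV', hϖ, hgen⟩
  obtain ⟨Y, d', n', h4, h5, h6, w', h7, h8, h9, P, h10, h11⟩ := h3 N hN₀ hdN V' ϖ hV' hϖ hgen
  have h12 : ramifiedRing (algebraMap K K') O ϖ = Pool.Agent.H176.DT.Orm O ϖ := rfl
  rw [h12]
  refine ⟨Y, ⟨h4, d', n', h5, h6⟩, w', h7, h8, h9, ?_⟩
  have h13 : centreRing V' (chart (Pool.Agent.H176.DT.Orm O ϖ)
      (blowUpCoordinates (algebraMap K K' '' W) Y) w') = P := h10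
  rw [h13]
  exact h11


end Pool.Agent.H413.PT
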