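import Pool.Agent.H413.PT.Base
import Pool.Agent.H893.AB.Cls2

/-!
# Valuations of Abhyankar deficiency at most one over algebras of finite type
-/

set_option autoImplicit false

universe u

namespace Pool.Agent.H413.PT

open IsLocalRing Pool.Agent.W418.LU2 Pool.Agent.TH188.QS
open scoped NNReal

/-- Valuations of deficiency at most one. -/
theorem good_near {k R : Type u} [Field k] (p : ℕ) [Fact p.Prime] [CharP k p] [CommRing R]
    [Algebra k R] [Algebra.FiniteType k R] {K : Type u} [Field K] (ρ : R →+* K)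
    (hE : letI := (ρ.comp (algebraMap k R)).toAlgebra; Algebra.EssFiniteType k K)
    (v : Valuation K ℝ≥0) (hk : ∀ c : k, c ≠ 0 → v (ρ (algebraMap k R c)) = 1)
    (hsg : letI := (ρ.comp (algebraMap k R)).toAlgebra; letI := Pool.Agent.H893.DD.rAlg v hk
      ∃ s : Finset (Pool.Agent.H893.DD.Rf v),
        IsTranscendenceBasis k ((↑) : s → Pool.Agent.H893.DD.Rf v) ∧
        Algebra.IsSeparable (IntermediateField.adjoin k (s : Set (Pool.Agent.H893.DD.Rf v)))
          (Pool.Agent.H893.DD.Rf v))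
    (r : ℕ) (hr : 0 < r)
    (htr : letI := (ρ.comp (algebraMap k R)).toAlgebra; Pool.Agent.H893.AB.Def1 (k := k) v hk r)
    (x : Fin r → K) (hx0 : ∀ i, x i ≠ 0)
    (hind : ∀ m : Fin r → ℤ, ∏ i, v (x i) ^ m i = 1 → m = 0)
    (hrr : ∀ z : K, z ≠ 0 → ∃ n : ℕ, n ≠ 0 ∧ ∃ m : Fin r → ℤ, v z ^ n = ∏ i, v (x i) ^ m i) :
    Pool.Agent.R187.CT.Good ρ v.valuationSubring := by
  obtain ⟨G, hG, hG'⟩ := exists_gen (k := k) (R := R)
  let _ := (ρ.comp (algebraMap k R)).toAlgebra
  have hE' : Algebra.EssFiniteType k K := hE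
  refine Pool.Agent.R187.CT.good_given (hj_finiteType k) ρ _ ?_ ?_
  · obtain ⟨S, hS, hSV, hSM⟩ := Pool.Agent.H893.DD.exists_mod (k := k) v hk
    refine ⟨S, hS, fun z => ?_⟩
    have h1 := (hSM (Pool.Agent.R187.CT.rg (ρ.comp (algebraMap k R)) S)
      (fun c => Subring.subset_closure (Or.inl ⟨c, rfl⟩))
      (fun s hs => Subring.subset_closure (Or.inr hs)) (by
        rw [Subring.closure_le]
        rintro z (⟨c, rfl⟩ | hz)
        · exact Pool.Agent.H893.DD.kV_mem v hk c
        · exact hSV z hz)).2 z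
    refine Pool.Agent.R187.CT.fr_mono ?_ h1
    unfold Pool.Agent.R187.CT.rg
    rw [Subring.closure_le]
    rintro z (⟨c, rfl⟩ | hz)
    · exact Subring.subset_closure (Or.inl ⟨algebraMap k R c, rfl⟩)
    · exact Subring.subset_closure (Or.inr hz)
  · intro T hT hTV hTK
    exact Pool.Agent.H893.AB.lu_all_def p v hk (htr.ess x hx0 hind) hsg r hr htr.tr x hx0 hind hrr
      (ρ '' G ∪ T) ((hG.image _).union hT) (Pool.Agent.R187.CT.rg ρ T) (hG' ρ T) ⟨hTV, hTK⟩

end Pool.Agent.H413.PT
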